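import Pool.Agent.Helper30.DL.GoalsB

/-!
MP_b4564f_an, packet MINQ: minimisation of a quadratic form.
-/

set_option autoImplicit false

open Finset

namespace Pool.Agent.Helper27.DL

open Pool.Agent.Helper30.DL

/-- scalar inequality -/
theorem minq_scalar {r1 c T x S E : ℝ} (hr : 0 < r1) (hc : 0 ≤ c) (hS : 0 ≤ S) (hE : 0 ≤ E)
    (hcs : x ^ 2 ≤ S * E) (hlt : c * S < r1) :
    -(c * (1 - c / r1 * S)⁻¹ * T ^ 2) ≤ r1 * E - c * (T + x) ^ 2 := by
  have hq : 0 < 1 - c / r1 * S := by
    have : c / r1 * S < 1 := by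
      rw [div_mul_eq_mul_div, div_lt_one hr]; exact hlt
    linarith
  rcases hS.eq_or_lt with h0 | hpos
  · subst h0
    have hx : x = 0 := by
      have : x ^ 2 ≤ 0 := by simpa using hcs
      exact pow_eq_zero_iff (two_ne_zero) |>.1 (le_antisymm this (sq_nonneg x))
    subst hx
    simp only [mul_zero, sub_zero, inv_one, mul_one, add_zero]
    have := mul_nonneg hr.le hE
    linarith
  · -- general case
    have hd : 0 < r1 - c * S := by linarith
    have hqe : 1 - c / r1 * S = (r1 - c * S) / r1 := by field_simp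
    rw [hqe, inv_div]
    have hEge : r1 * (x ^ 2 / S) ≤ r1 * E := by
      apply mul_le_mul_of_nonneg_left _ hr.le
      rw [div_le_iff₀ hpos]; linarith
    have key : -(c * (r1 / (r1 - c * S)) * T ^ 2) ≤ r1 * (x ^ 2 / S) - c * (T + x) ^ 2 := by
      have hid : r1 * (x ^ 2 / S) - c * (T + x) ^ 2 + c * (r1 / (r1 - c * S)) * T ^ 2
          = ((r1 - c * S) / S) * (x - c * S * T / (r1 - c * S)) ^ 2 := by
        have hne : r1 - c * S ≠ 0 := hd.ne'
        have hSne : S ≠ 0 := hpos.ne'
        obtain ⟨d, hdd⟩ : ∃ d, r1 - c * S = d := ⟨_, rfl⟩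
        have hr1 : r1 = d + c * S := by linarith
        rw [hdd] at hne ⊢
        rw [hr1]
        field_simp
        ring
      have hnn : 0 ≤ ((r1 - c * S) / S) * (x - c * S * T / (r1 - c * S)) ^ 2 :=
        mul_nonneg (div_nonneg hd.le hpos.le) (sq_nonneg _)
      linarith
    linarith

/-- packet MINQ -/
theorem minq : MinqStmt := by
  intro k t r1 c T0 b B D ht hr hc hlt
  have hth : 0 < th t := by unfold th; linarith
  -- the shifted function
  set E : ℕ → ℝ := fun j => D j + 1 / (2 * r1) * B j with hE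
  have hSEE : SS k t E E = SS k t D D + 1 / r1 * SS k t B D + (1 / (2 * r1)) ^ 2 * SS k t B B := by
    simp only [SS, hE]
    have : (∑ j ∈ range k, (D j + 1 / (2 * r1) * B j) * (D j + 1 / (2 * r1) * B j))
        = (∑ j ∈ range k, D j * D j) + 1 / r1 * (∑ j ∈ range k, B j * D j)
          + (1 / (2 * r1)) ^ 2 * (∑ j ∈ range k, B j * B j) := by
      rw [mul_sum, mul_sum, ← sum_add_distrib, ← sum_add_distrib]
      refine sum_congr rfl fun j _ => ?_
      field_simp
      ring
    rw [this]; ring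
  have hSbE : SS k t b E = SS k t b D + 1 / (2 * r1) * SS k t B b := by
    simp only [SS, hE]
    have : (∑ j ∈ range k, b j * (D j + 1 / (2 * r1) * B j))
        = (∑ j ∈ range k, b j * D j) + 1 / (2 * r1) * (∑ j ∈ range k, B j * b j) := by
      rw [mul_sum, ← sum_add_distrib]
      refine sum_congr rfl fun j _ => ?_
      ring
    rw [this]; ring
  have hnn : ∀ u : ℕ → ℝ, 0 ≤ SS k t u u := fun u =>
    mul_nonneg hth.le (sum_nonneg fun j _ => mul_self_nonneg _)
  have hcs : (SS k t b E) ^ 2 ≤ SS k t b b * SS k t E E := by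
    have h := sum_mul_sq_le_sq_mul_sq (range k) b E
    simp only [SS]
    have e1 : (∑ j ∈ range k, b j * b j) = ∑ j ∈ range k, b j ^ 2 :=
      sum_congr rfl fun j _ => by ring
    have e2 : (∑ j ∈ range k, E j * E j) = ∑ j ∈ range k, E j ^ 2 :=
      sum_congr rfl fun j _ => by ring
    rw [e1, e2]
    have : (th t) ^ 2 * (∑ j ∈ range k, b j * E j) ^ 2
        ≤ (th t) ^ 2 * ((∑ j ∈ range k, b j ^ 2) * ∑ j ∈ range k, E j ^ 2) :=
      mul_le_mul_of_nonneg_left h (sq_nonneg _)
    nlinarith [this]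
  have hmain := minq_scalar (T := T0 - 1 / (2 * r1) * SS k t B b) (x := SS k t b E) hr hc
    (hnn b) (hnn E) hcs hlt
  have e3 : r1 * SS k t E E
      = r1 * SS k t D D + SS k t B D + 1 / (4 * r1) * SS k t B B := by
    rw [hSEE]; field_simp; ring
  have e4 : T0 - 1 / (2 * r1) * SS k t B b + SS k t b E = T0 + SS k t b D := by
    rw [hSbE]; ring
  rw [e3, e4] at hmain
  linarith

end Pool.Agent.Helper27.DL
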